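import Mathlib
import Pool.Agent.Y215.AF.LogConv

set_option autoImplicit false

/-!
# The Lang-Vojta conjecture for integral points which are sums of units, and heights

Let `U` be an affine variety over a number field `k`, the zeros in affine `n`-space of finitely many
polynomials `F` of degree at most `d`.

(1) Suppose that `U` is integral and not dominated by punctured lines (for instance `U` is of
log-general type and of positive dimension), and let `r` be a natural number. There is a proper
closed subset `Z = U ∩ {G = 0}` of `U`, defined over `k` and depending only on `U` and `r`, such that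

* for every number field `L ⊇ k` and every finite set `S` of primes of `L`, the points of `(U ∖ Z)(L)`
  all of whose coordinates are sums of at most `r` `S`-units are finite in number;
* for every finitely generated group `Γ` of algebraic numbers there is `C` such that for all points
  `x = u_1 V_1 + … + u_r V_r` of `U ∖ Z` over `Qbar`, with algebraic numbers `u_j` with a power in `Γ`
  and ARBITRARY vectors `V_j` over `Qbar`: `h(1 : x) ≤ C (1 + h(1 : V))`;
* so for each number field there are only finitely many such points over it with `h(1 : V) ≤ B`;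
* for all `Γ` and `V_j`, over the field of ALL algebraic numbers, at most `A (1 + h(1 : V)) ^ e` points
  of `U ∖ Z` are of the form `u_1 s_1 V_1 + … + u_r s_r V_r` with `u_j` with a power in `Γ` and
  `h(1 : s) < ε(d, r)`.

(2) If `U` is dominated by punctured lines then this fails: for some `r` and every proper closed
subset `G = 0` there are a number field `L` and a finite set `S` of primes such that infinitely many
points of `U(L)` off `G = 0` have coordinates which are sums of at most `r` `S`-units.

(3) `U` (not necessarily integral) has no nonconstant punctured line over number fields (for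
instance since all subvarieties of positive dimension of `U` are of log-general type) if and only if
for all `r`, `L` and `S` the points of `U(L)`, all of whose coordinates are sums of at most `r`
`S`-units, are finite in number; and then all of (1) holds with `Z` empty.
-/

namespace Pool.Agent.Results.MP_26d9ad_nt.SumsOfUnits

open MvPolynomial Pool.Agent.Y215.AF

theorem result : ∃ ε : ℕ → ℕ → ℝ, (∀ d r, 1 ≤ d → 0 < ε d r) ∧
    ∀ (k : Type) [Field k] [NumberField k] (n N : ℕ) (F : Fin N → MvPolynomial (Fin n) k) (d : ℕ),
      1 ≤ d → (∀ i, (F i).totalDegree ≤ d) →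
      ((Ideal.span (Set.range F)).IsPrime → ¬ GmUniruled (Ideal.span (Set.range F)) → ∀ r : ℕ,
        ∃ G : MvPolynomial (Fin n) k, G ∉ Ideal.span (Set.range F) ∧
          UnitSumOff F G r ∧ HeightsOff F G r ∧ RationalOff F G r ∧ NearOff (ε d r) F G r) ∧
      (GmUniruled (Ideal.span (Set.range F)) → ∃ r : ℕ, ∀ G : MvPolynomial (Fin n) k,
        G ∉ Ideal.span (Set.range F) → ¬ UnitSumOff F G r) ∧
      (NoGmCurve F ↔ ∀ r : ℕ, UnitSumOff F 1 r) ∧
      (NoGmCurve F → ∀ r : ℕ,
        UnitSumOff F 1 r ∧ HeightsOff F 1 r ∧ RationalOff F 1 r ∧ NearOff (ε d r) F 1 r) := by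
  refine ⟨eps, eps_pos, fun k _ _ n N F d hd1 hd => ?_⟩
  have h3 : NoGmCurve F → ∀ r : ℕ,
      UnitSumOff F 1 r ∧ HeightsOff F 1 r ∧ RationalOff F 1 r ∧ NearOff (eps d r) F 1 r := by
    intro h r
    have h1 := curCond_one F d hd h
    exact ⟨unitSumOff F 1 r (rationalOff F 1 _ (heightsOff F d hd 1 _ (h1 (n * r)))),
      heightsOff F d hd 1 r (h1 r), rationalOff F 1 _ (heightsOff F d hd 1 r (h1 r)),
      nearOff_main F d hd1 hd 1 r (h1 r)⟩
  refine ⟨fun hprime hnu r => ?_, conv_gm F,
    ⟨fun h r => (h3 h r).1, noGm_of_units F⟩, h3⟩
  have hF : ∀ p ∈ Set.range F, p.totalDegree ≤ d := by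
    rintro _ ⟨i, rfl⟩
    exact hd i
  obtain ⟨G, hG, hG2⟩ := exists_hyperA (Set.range F) hprime hnu d hd1 hF r
  obtain ⟨G', hG', hG2'⟩ := exists_hyperA (Set.range F) hprime hnu d hd1 hF (n * r)
  have hc : CurCond F d (G * G') r := by
    intro L _ _ c l hz hc
    rw [map_mul, hG2 L c l (by
      rintro _ ⟨i, rfl⟩
      exact hz i) hc, zero_mul]
  have hc' : CurCond F d (G * G') (n * r) := by
    intro L _ _ c l hz hc
    rw [map_mul, hG2' L c l (by
      rintro _ ⟨i, rfl⟩
      exact hz i) hc, mul_zero]
  refine ⟨G * G', fun h => ?_, ?_, ?_, ?_, ?_⟩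
  · rcases hprime.mem_or_mem h with h | h
    · exact hG h
    · exact hG' h
  · exact unitSumOff F _ r (rationalOff F _ _ (heightsOff F d hd _ _ hc'))
  · exact heightsOff F d hd _ r hc
  · exact rationalOff F _ _ (heightsOff F d hd _ r hc)
  · exact nearOff_main F d hd1 hd _ r hc

end Pool.Agent.Results.MP_26d9ad_nt.SumsOfUnits
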