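import Mathlib
import Pool.Agent.Y215.SP.Conv

set_option autoImplicit false

/-!
# The strong Lang conjecture, uniformly, for linear images of points of small height

Let `X` be an integral closed subvariety of projective `n`-space over a field `k` (for instance a
number field), given by forms of degree at most `d`, which is not uniruled (for instance a variety
of general type of positive dimension), and let `r` be a natural number.

(1) There is a proper closed subset `Z = X ∩ {G = 0}` of `X`, defined over `k`, such that for ALL
extension fields `L` of `k`, all embeddings `ι` of the field of algebraic numbers in `L` and all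
vectors `v_1, …, v_r` with coordinates in `L`: at most `M` points of `X ∖ Z` have homogeneous
coordinates

  `ι(t_1) v_1 + … + ι(t_r) v_r`  with algebraic numbers `t_j` and `h(t_1 : … : t_r) < ε`.

Here `ε > 0` and `M` depend only on `r` and `d`: not on `X`, `k`, the number and the coefficients of
the equations, `n`, the field `L`, or the vectors `v_j`.  The number field generated by the `t_j` is
arbitrary.  In particular the theorem covers all points `∑ ζ_j v_j` with roots of unity `ζ_j`, for
which Northcott's theorem gives nothing, and (for `r = n + 1`) all algebraic points of `X ∖ Z` of
height less than `ε`; geometrically, a linear map from a projective space of dimension `r - 1`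
sends at most `M` points of small height to points of `X ∖ Z`.

(2) For uniruled `X` over a number field this fails: for some `r` and for every proper closed subset
`G = 0` there are algebraic vectors `v_j` such that infinitely many points `∑ ζ_j v_j` with roots of
unity `ζ_j` lie on `X` and outside `G = 0`.

Method: for a solution of small height of a linear equation `∑ a_j y_j = 0` with arbitrary
coefficients and without vanishing subsums, all determinants of solutions vanish, and this remains
true after applying the map `y ↦ y ^ p` to some columns for a prime `p` larger than the number of
terms (a product formula argument modulo `p`, due to Dobrowolski and Bombieri–Zannier); so the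
solutions lie in boundedly many smaller systems, and the ratios take boundedly many values.  Applied
to the monomials of the equations of `X`, this gives boundedly many patterns of vanishing subsums;
moving along a one-parameter subgroup compatible with the pattern gives a rational curve on `X`
with `r` terms through the point.  Since `X` is not uniruled, the nonconstant ones lie in a fixed
hypersurface, and a generic one being constant leaves boundedly many points.
-/

namespace Pool.Agent.Results.MP_7ede32_ag.SmallMultipliers

open MvPolynomial Pool.Agent.Helper259.AbsHt Pool.Agent.H533R3.SL Pool.Agent.Y215.SP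

theorem result (d : ℕ) (hd : 1 ≤ d) (r : ℕ) :
    (∃ (ε : ℝ) (M : ℕ), 0 < ε ∧
      ∀ (k : Type) [Field k] (n N : ℕ) (P : Fin N → MvPolynomial (Fin (n + 1)) k),
        (∀ i, ∃ e, e ≤ d ∧ (P i).IsHomogeneous e) →
        (Ideal.span (Set.range P)).IsPrime → ¬ Uniruled (Ideal.span (Set.range P)) →
        ∃ G : MvPolynomial (Fin (n + 1)) k, (∃ e, G.IsHomogeneous e) ∧
          G ∉ Ideal.span (Set.range P) ∧
          ∀ (L : Type) [Field L] [Algebra k L] (ι : Qbar →+* L) (v : Fin r → Fin (n + 1) → L),
            (smallOff ι P G ε v).encard ≤ (M : ℕ∞)) ∧
    (∀ (k : Type) [Field k] [NumberField k] (n N : ℕ) (P : Fin N → MvPolynomial (Fin (n + 1)) k),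
      Uniruled (Ideal.span (Set.range P)) →
      ∃ s : ℕ, ∀ G : MvPolynomial (Fin (n + 1)) k, (∃ e, G.IsHomogeneous e) →
        G ∉ Ideal.span (Set.range P) →
        ∃ (_ : Algebra k Qbar) (v : Fin s → Fin (n + 1) → Qbar), (torsOff P G v).Infinite) := by
  refine ⟨⟨epsn ((d + 1) ^ r) / d, 2 ^ r * M0 ((d + 1) ^ r) d r, ?_, ?_⟩, ?_⟩
  · exact div_pos (epsn_pos _ (Nat.one_le_pow _ _ (by omega))) (by exact_mod_cast hd)
  · intro k _ n N P hP hprime hnu
    exact small_multipliers P d hd hP hprime hnu r
  · intro k _ _ n N P hu
    exact converse k P hu

end Pool.Agent.Results.MP_7ede32_ag.SmallMultipliers
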